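import Pool.Agent.Lib.MP_fb3619_al.RG.Iface

/-!
# MP_fb3619_al, board RG, row FRC: invariant subgroups without fixed points give configurations
-/

set_option autoImplicit false

universe u

namespace Pool.Agent.FourGp.RG

open Pool.Agent.FourGp.FF (Fr Cz Fx fi VInv HD TT mem_Cz mem_Fx)

namespace Frc

/-- Membership in the four-group. -/
def InV {G : Type u} [Group G] (a b c u : G) : Prop := u = 1 ∨ u = a ∨ u = b ∨ u = c

theorem inV_mul {G : Type u} [Group G] {K : Subgroup G} {a b c : G} (h : Fr K a b c)
    {x y : G} (hx : InV a b c x) (hy : InV a b c y) : InV a b c (x * y) := by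
  have e1 := h.aa; have e2 := h.bb; have e3 := h.cc
  have e4 := h.ab; have e5 := h.ba; have e6 := h.bc; have e7 := h.cb; have e8 := h.ca
  have e9 := h.ac
  unfold InV at *
  rcases hx with rfl | hx | hx | hx <;> rcases hy with rfl | hy | hy | hy <;>
    first
    | (simp; done)
    | (subst hx; simp; done)
    | (subst hy; simp; done)
    | (rw [hx, hy]; simp only [e1, e2, e3, e4, e5, e6, e7, e8, e9, true_or, or_true])

theorem inV_sq {G : Type u} [Group G] {K : Subgroup G} {a b c : G} (h : Fr K a b c)
    {x : G} (hx : InV a b c x) : x * x = 1 := by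
  rcases hx with rfl | rfl | rfl | rfl
  · exact one_mul 1
  · exact h.aa
  · exact h.bb
  · exact h.cc

end Frc

open Frc

theorem frc.{v} : FrcS.{v} := by
  intro G _ K N a b c h hNK hV hfix
  have hNc : ∀ u ∈ N, c * u * c ∈ N := by
    intro u hu
    have e : c * u * c = a * (b * u * b) * a := by
      calc c * u * c = (a * b) * u * (b * a) := by rw [h.ab, h.ba]
        _ = _ := by group
    rw [e]
    exact hV.1 _ (hV.2 u hu)
  have hconj : ∀ u, InV a b c u → ∀ n ∈ N, u * n * u ∈ N := by
    intro u hu n hn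
    rcases hu with rfl | rfl | rfl | rfl
    · simpa using hn
    · exact hV.1 n hn
    · exact hV.2 n hn
    · exact hNc n hn
  have hV1 : InV a b c 1 := Or.inl rfl
  have hVa : InV a b c a := Or.inr (Or.inl rfl)
  have hVb : InV a b c b := Or.inr (Or.inr (Or.inl rfl))
  have hVc : InV a b c c := Or.inr (Or.inr (Or.inr rfl))
  let S : Subgroup G :=
    { carrier := {x | ∃ u, InV a b c u ∧ x * u ∈ N}
      mul_mem' := by
        rintro x y ⟨u, hu, hx⟩ ⟨w, hw, hy⟩
        refine ⟨w * u, inV_mul h hw hu, ?_⟩
        have e : x * y * (w * u) = (x * u) * (u * (y * w) * u) := by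
          have := inV_sq h hu
          calc x * y * (w * u) = x * 1 * (y * w) * u := by group
            _ = x * (u * u) * (y * w) * u := by rw [this]
            _ = _ := by group
        rw [e]
        exact N.mul_mem hx (hconj u hu _ hy)
      one_mem' := ⟨1, hV1, by simp⟩
      inv_mem' := by
        rintro x ⟨u, hu, hx⟩
        refine ⟨u, hu, ?_⟩
        have h1 := hconj u hu _ (N.inv_mem hx)
        have e : x⁻¹ * u = u * (x * u)⁻¹ * u := by
          calc x⁻¹ * u = (u * u⁻¹) * x⁻¹ * u := by group
            _ = u * (x * u)⁻¹ * u := by group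
        rw [e]
        exact h1 }
  have hS : HV N a b c = S := by
    apply le_antisymm
    · refine sup_le (fun n hn => ⟨1, hV1, by simpa using hn⟩) ?_
      rw [Subgroup.closure_le]
      rintro x (rfl | rfl | rfl)
      · exact ⟨_, hVa, by rw [h.aa]; exact N.one_mem⟩
      · exact ⟨_, hVb, by rw [h.bb]; exact N.one_mem⟩
      · exact ⟨_, hVc, by rw [h.cc]; exact N.one_mem⟩
    · rintro x ⟨u, hu, hx⟩
      have e : x = (x * u) * u := by rw [mul_assoc, inV_sq h hu, mul_one]
      rw [e]
      refine (HV N a b c).mul_mem (le_sup_left (a := N) hx) ?_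
      rcases hu with rfl | rfl | rfl | rfl
      · exact one_mem _
      · exact le_sup_right (a := N) (Subgroup.subset_closure (by simp))
      · exact le_sup_right (a := N) (Subgroup.subset_closure (by simp))
      · exact le_sup_right (a := N) (Subgroup.subset_closure (by simp))
  have hmem : ∀ x, x ∈ HV N a b c ↔ x ∈ N ∨ x * a ∈ N ∨ x * b ∈ N ∨ x * c ∈ N := by
    intro x
    rw [hS]
    constructor
    · rintro ⟨u, hu, hx⟩
      rcases hu with rfl | rfl | rfl | rfl
      · exact Or.inl (by simpa using hx)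
      · exact Or.inr (Or.inl hx)
      · exact Or.inr (Or.inr (Or.inl hx))
      · exact Or.inr (Or.inr (Or.inr hx))
    · rintro (hx | hx | hx | hx)
      · exact ⟨1, hV1, by simpa using hx⟩
      · exact ⟨a, hVa, hx⟩
      · exact ⟨b, hVb, hx⟩
      · exact ⟨c, hVc, hx⟩
  constructor
  · refine ⟨le_sup_left, ?_, ?_, ?_, ?_, h.aa, h.bb, h.cc, by rw [h.ab, h.cc],
      fun e => h.na (hNK e), fun e => h.nb (hNK e), fun e => h.nc (hNK e),
      fun x hx => (hmem x).1 hx, fun k hk => h.odd k (hNK hk), fun k hk h1 h2 =>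
        hfix k hk (mem_Fx.2 ⟨hNK hk, h1.symm, h2.symm⟩)⟩
    · exact (hmem a).2 (Or.inr (Or.inl (by rw [h.aa]; exact N.one_mem)))
    · exact (hmem b).2 (Or.inr (Or.inr (Or.inl (by rw [h.bb]; exact N.one_mem))))
    · exact (hmem c).2 (Or.inr (Or.inr (Or.inr (by rw [h.cc]; exact N.one_mem))))
    · intro x hx k hk
      rw [hS] at hx
      obtain ⟨u, hu, hx⟩ := hx
      have e : x⁻¹ * k * x = u * ((x * u)⁻¹ * k * (x * u)) * u := by
        have := inV_sq h hu
        calc x⁻¹ * k * x = x⁻¹ * k * x * 1 := by group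
          _ = x⁻¹ * k * x * (u * u) := by rw [this]
          _ = (u * u⁻¹) * x⁻¹ * k * x * (u * u) := by group
          _ = _ := by group
      rw [e]
      exact hconj u hu _ (N.mul_mem (N.mul_mem (N.inv_mem hx) hk) hx)
  · intro e he hn
    obtain ⟨he1, he2, he3⟩ := mem_Fx.1 he
    exact ⟨h.odd e he1, he2, he3, h.comm3 he2 he3, hn⟩

end Pool.Agent.FourGp.RG
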