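import Pool.Agent.Lib.MP_fb3619_al.RG.Iface

/-! PMF, PMJ, FIN: the product `pm` (board RG). -/

set_option autoImplicit false

universe u

namespace Pool.Agent.FourGp.RG

open Equiv
open Pool.Agent.FourGp.FF (Fr Cz Fx fi VInv HD mem_Cz)
open Pool.Agent.FourGp.H99 (LF)

section basic

variable {G : Type u} [Group G]

theorem hsq_sq {g : G} (hg : ∃ n : ℕ, g ^ (2 * n + 1) = 1) : hsq g * hsq g = g := by
  obtain ⟨n, hn⟩ := hg
  have h1 : orderOf g ∣ 2 * n + 1 := orderOf_dvd_of_pow_eq_one hn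
  have h2 : Odd (orderOf g) := Odd.of_dvd_nat ⟨n, rfl⟩ h1
  obtain ⟨m, hm⟩ := h2
  unfold hsq
  rw [hm, show (2 * m + 1 + 1) / 2 = m + 1 by omega, ← pow_add,
    show m + 1 + (m + 1) = (2 * m + 1) + 1 by omega, pow_succ, ← hm, pow_orderOf_eq_one, one_mul]

theorem hsq_mem {K : Subgroup G} {g : G} (hg : g ∈ K) : hsq g ∈ K := K.pow_mem hg _

theorem hsq_uniq {g s : G} (hg : ∃ n : ℕ, g ^ (2 * n + 1) = 1)
    (hs : ∃ n : ℕ, s ^ (2 * n + 1) = 1) (h : s * s = g) : s = hsq g := by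
  refine H91.sq_uniq hs ?_ (h.trans (hsq_sq hg).symm)
  obtain ⟨n, hn⟩ := hg
  refine ⟨n, ?_⟩
  unfold hsq
  rw [← pow_mul, mul_comm, pow_mul, hn, one_pow]

theorem hsq_map (f : G ≃* G) (g : G) : f (hsq g) = hsq (f g) := by
  unfold hsq
  rw [map_pow, MulEquiv.orderOf_eq]

theorem pm_map (f : G ≃* G) (p q : G) : f (pm p q) = pm (f p) (f q) := by
  unfold pm
  rw [map_mul, map_inv, hsq_map, map_mul, map_mul, map_mul]

theorem pm_conj (x p q : G) : x⁻¹ * pm p q * x = pm (x⁻¹ * p * x) (x⁻¹ * q * x) := by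
  have h := pm_map (MulAut.conj x⁻¹) p q
  simpa using h

theorem pm_invol {v : G} (hv : v * v = 1) (p q : G) :
    v * pm p q * v = pm (v * p * v) (v * q * v) := by
  have h := pm_conj v p q
  have e : v⁻¹ = v := inv_eq_of_mul_eq_one_right hv
  rwa [e] at h

variable {K : Subgroup G}

theorem pm_mem {p q : G} (hp : p ∈ K) (hq : q ∈ K) : pm p q ∈ K :=
  K.mul_mem (hsq_mem (K.mul_mem (K.mul_mem hp hq) (K.mul_mem hq hp)))
    (K.inv_mem (K.mul_mem hq hp))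

theorem pm_spec (hK : ∀ k ∈ K, ∃ n : ℕ, k ^ (2 * n + 1) = 1) {p q : G} (hp : p ∈ K) (hq : q ∈ K) :
    p * q = pm p q * (q * p) * pm p q := by
  have h1 := hsq_sq (hK _ (K.mul_mem (K.mul_mem hp hq) (K.mul_mem hq hp)))
  unfold pm
  calc p * q = p * q * (q * p) * (q * p)⁻¹ := by group
    _ = hsq (p * q * (q * p)) * hsq (p * q * (q * p)) * (q * p)⁻¹ := by rw [h1]
    _ = _ := by group

theorem pm_uniq (hK : ∀ k ∈ K, ∃ n : ℕ, k ^ (2 * n + 1) = 1) {p q γ : G} (hp : p ∈ K)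
    (hq : q ∈ K) (hγ : γ ∈ K) (h : p * q = γ * (q * p) * γ) : γ = pm p q := by
  have h1 : (γ * (q * p)) * (γ * (q * p)) = p * q * (q * p) := by
    rw [h]; group
  have h2 := hsq_uniq (hK _ (K.mul_mem (K.mul_mem hp hq) (K.mul_mem hq hp)))
    (hK _ (K.mul_mem hγ (K.mul_mem hq hp))) h1
  unfold pm
  rw [← h2]; group

theorem pm_swap (hK : ∀ k ∈ K, ∃ n : ℕ, k ^ (2 * n + 1) = 1) {p q : G} (hp : p ∈ K)
    (hq : q ∈ K) : pm q p = (pm p q)⁻¹ := by
  symm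
  refine pm_uniq hK hq hp (K.inv_mem (pm_mem hp hq)) ?_
  have h := pm_spec hK hp hq
  calc q * p = (pm p q)⁻¹ * (pm p q * (q * p) * pm p q) * (pm p q)⁻¹ := by group
    _ = _ := by rw [← h]

theorem pm_eq_one (hK : ∀ k ∈ K, ∃ n : ℕ, k ^ (2 * n + 1) = 1) {p q : G} (hp : p ∈ K)
    (hq : q ∈ K) : pm p q = 1 ↔ p * q = q * p := by
  constructor
  · intro e
    have h := pm_spec hK hp hq
    rw [e] at h
    simpa using h
  · intro e
    symm
    refine pm_uniq hK hp hq K.one_mem ?_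
    rw [e]; group

/-- `s` commutes with `p` and `q`. -/
theorem pm_mul_right (hK : ∀ k ∈ K, ∃ n : ℕ, k ^ (2 * n + 1) = 1) {p q s : G} (hp : p ∈ K)
    (hq : q ∈ K) (hs : s ∈ K) (h1 : s * p = p * s) (h2 : s * q = q * s) :
    pm p (q * s) = pm p q := by
  symm
  refine pm_uniq hK hp (K.mul_mem hq hs) (pm_mem hp hq) ?_
  have h3 : s⁻¹ * pm p q * s = pm p q := by
    rw [pm_conj]
    congr 1
    · rw [mul_assoc, ← h1]; group
    · rw [mul_assoc, ← h2]; group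
  have h4 : s * pm p q = pm p q * s := by
    calc s * pm p q = s * (s⁻¹ * pm p q * s) := by rw [h3]
      _ = pm p q * s := by group
  have h := pm_spec hK hp hq
  calc p * (q * s) = p * q * s := by group
    _ = pm p q * (q * p) * pm p q * s := by rw [← h]
    _ = pm p q * (q * p) * (pm p q * s) := by group
    _ = pm p q * (q * p) * (s * pm p q) := by rw [h4]
    _ = pm p q * (q * (p * s)) * pm p q := by group
    _ = pm p q * (q * (s * p)) * pm p q := by rw [h1]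
    _ = pm p q * (q * s * p) * pm p q := by group

end basic

section cfg

variable {G : Type u} [Group G] {H K : Subgroup G} {a b c : G}

/-- `b` inverts `C_K(a)`. -/
theorem xa_b (h : Cfg H K a b c) {x : G} (hx : x ∈ K) (hxa : x * a = a * x) :
    b * x * b = x⁻¹ := h.rot.inv_a hx hxa

/-- `c` inverts `C_K(a)`. -/
theorem xa_c (h : Cfg H K a b c) {x : G} (hx : x ∈ K) (hxa : x * a = a * x) :
    c * x * c = x⁻¹ := h.rot.inv_b hx hxa

/-- `C_K(a)` is abelian. -/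
theorem xa_comm (h : Cfg H K a b c) {x y : G} (hx : x ∈ K) (hxa : x * a = a * x) (hy : y ∈ K)
    (hya : y * a = a * y) : x * y = y * x := by
  have h1 := xa_b h hx hxa
  have h2 := xa_b h hy hya
  have h3 := xa_b h (K.mul_mem hx hy)
    (Commute.mul_left (show Commute x a from hxa) (show Commute y a from hya))
  have h4 : x⁻¹ * y⁻¹ = (x * y)⁻¹ := by
    rw [← h1, ← h2, ← h3]
    calc b * x * b * (b * y * b) = b * x * (b * b) * y * b := by group
      _ = b * (x * y) * b := by rw [h.hbb]; group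
  have h5 : (y * x)⁻¹ = (x * y)⁻¹ := by rw [← h4, mul_inv_rev]
  exact (inv_injective h5).symm

theorem comm_of_cj {v k : G} (hv : v * v = 1) (e : v * k * v = k) : k * v = v * k := by
  calc k * v = (v * v) * (k * v) := by rw [hv, one_mul]
    _ = v * (v * k * v) := by group
    _ = v * k := by rw [e]

theorem cj_of_comm {v k : G} (hv : v * v = 1) (e : k * v = v * k) : v * k * v = k := by
  rw [mul_assoc, e, ← mul_assoc, hv, one_mul]

theorem pm_inv_inv (hK : ∀ k ∈ K, ∃ n : ℕ, k ^ (2 * n + 1) = 1) {p q : G} (hp : p ∈ K)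
    (hq : q ∈ K) : pm p⁻¹ q⁻¹ = pm p q := by
  symm
  refine pm_uniq hK (K.inv_mem hp) (K.inv_mem hq) (pm_mem hp hq) ?_
  have h := pm_spec hK hp hq
  have h1 : (p * q)⁻¹ = (pm p q * (q * p) * pm p q)⁻¹ := congrArg _ h
  calc p⁻¹ * q⁻¹ = pm p q * (pm p q * (q * p) * pm p q)⁻¹ * pm p q := by group
    _ = pm p q * (p * q)⁻¹ * pm p q := by rw [h1]
    _ = pm p q * (q⁻¹ * p⁻¹) * pm p q := by group

/-- The value commutes with every involution inverting `p` and `q`. -/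
theorem pm_c' (hK : ∀ k ∈ K, ∃ n : ℕ, k ^ (2 * n + 1) = 1) {v p q : G} (hv : v * v = 1)
    (hp : p ∈ K) (hq : q ∈ K) (h1 : v * p * v = p⁻¹) (h2 : v * q * v = q⁻¹) :
    pm p q * v = v * pm p q := by
  refine comm_of_cj hv ?_
  rw [pm_invol hv, h1, h2, pm_inv_inv hK hp hq]

theorem pm_c (h : Cfg H K a b c) {p q : G} (hp : p ∈ K) (hpa : p * a = a * p) (hq : q ∈ K)
    (hqb : q * b = b * q) : pm p q * c = c * pm p q :=
  pm_c' h.odd h.hcc hp hq (xa_c h hp hpa) (h.rot.rot.inv_a hq hqb)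

theorem pm_K0 (h : Cfg H K a b c) {p q : G} (hp : p ∈ K) (hq : q ∈ K) : pm p q ∈ K0 H K := by
  obtain ⟨-, h2, h3⟩ := part1_kcls G H K a b c h
  have hγ := pm_mem hp hq
  have hs := pm_spec h.odd hp hq
  generalize pm p q = γ at hγ hs
  have hu : q * p ∈ K := K.mul_mem hq hp
  have e1 := h2 p hp q hq
  have e2 := h2 (q * p)⁻¹ (K.inv_mem hu) γ hγ
  have e3 := h3 (q * p)⁻¹ (H.inv_mem (h.le hu)) _ e1
  have e4 := (K0 H K).mul_mem e3 e2
  have e5 : (q * p)⁻¹⁻¹ * (p⁻¹ * q⁻¹ * p * q) * (q * p)⁻¹ *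
      ((q * p)⁻¹⁻¹ * γ⁻¹ * (q * p)⁻¹ * γ) = γ * γ := by
    calc (q * p)⁻¹⁻¹ * (p⁻¹ * q⁻¹ * p * q) * (q * p)⁻¹ *
        ((q * p)⁻¹⁻¹ * γ⁻¹ * (q * p)⁻¹ * γ) = (p * q) * γ⁻¹ * (q * p)⁻¹ * γ := by group
      _ = γ * (q * p) * γ * γ⁻¹ * (q * p)⁻¹ * γ := by rw [hs]
      _ = γ * γ := by group
  rw [e5] at e4
  obtain ⟨n, hn⟩ := h.odd γ hγ
  have e6 : (γ * γ) ^ (n + 1) = γ := by
    rw [← pow_two, ← pow_mul, show 2 * (n + 1) = 2 * n + 1 + 1 by ring, pow_succ, hn, one_mul]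
  rw [← e6]
  exact (K0 H K).pow_mem e4 _

theorem pm_inj (h : Cfg H K a b c) {p q q' : G} (hp : p ∈ K) (hpa : p * a = a * p) (hq : q ∈ K)
    (hqb : q * b = b * q) (hq' : q' ∈ K) (hqb' : q' * b = b * q') (e : pm p q = pm p q') :
    (q' * q⁻¹) * p = p * (q' * q⁻¹) := by
  have hγ := pm_mem hp hq
  have hγc := pm_c h hp hpa hq hqb
  have s1 := pm_spec h.odd hp hq
  have s2 := pm_spec h.odd hp hq'
  rw [← e] at s2
  generalize pm p q = γ at hγ hγc s1 s2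
  have hρ : q' * q⁻¹ ∈ K := K.mul_mem hq' (K.inv_mem hq)
  have hρb : q' * q⁻¹ * b = b * (q' * q⁻¹) :=
    Commute.mul_left (show Commute q' b from hqb') (Commute.inv_left (show Commute q b from hqb))
  have f1 : a * (q' * q⁻¹) * a = (q' * q⁻¹)⁻¹ := h.rot.rot.inv_b hρ hρb
  have f2 : a * γ * a = γ⁻¹ := h.inv_a hγ hγc
  have f3 : a * p * a = p := cj_of_comm h.haa hpa
  -- `ρ` commutes with `γ⁻¹ p`
  have k1 : (q' * q⁻¹) * (γ⁻¹ * p) = (γ⁻¹ * p) * (q' * q⁻¹) := by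
    have t1 : q⁻¹ * (γ⁻¹ * p) * q = p * γ := by
      calc q⁻¹ * (γ⁻¹ * p) * q = q⁻¹ * γ⁻¹ * (p * q) := by group
        _ = q⁻¹ * γ⁻¹ * (γ * (q * p) * γ) := by rw [s1]
        _ = p * γ := by group
    have t2 : q'⁻¹ * (γ⁻¹ * p) * q' = p * γ := by
      calc q'⁻¹ * (γ⁻¹ * p) * q' = q'⁻¹ * γ⁻¹ * (p * q') := by group
        _ = q'⁻¹ * γ⁻¹ * (γ * (q' * p) * γ) := by rw [s2]
        _ = p * γ := by group
    calc (q' * q⁻¹) * (γ⁻¹ * p) = q' * (q⁻¹ * (γ⁻¹ * p) * q) * q⁻¹ := by group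
      _ = q' * (q'⁻¹ * (γ⁻¹ * p) * q') * q⁻¹ := by rw [t1, t2]
      _ = (γ⁻¹ * p) * (q' * q⁻¹) := by group
  generalize q' * q⁻¹ = ρ at hρ hρb f1 k1
  -- apply `a`
  have k2 : ρ * (γ * p) = (γ * p) * ρ := by
    have t3 : ρ⁻¹ * (γ * p) = (γ * p) * ρ⁻¹ := by
      have u1 : a * (γ⁻¹ * p) * a = γ * p := by
        have : a * γ⁻¹ * a = γ := by
          rw [← f2]
          calc a * (a * γ * a) * a = (a * a) * γ * (a * a) := by group
            _ = γ := by rw [h.haa]; group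
        calc a * (γ⁻¹ * p) * a = a * γ⁻¹ * 1 * p * a := by group
          _ = a * γ⁻¹ * (a * a) * p * a := by rw [h.haa]
          _ = (a * γ⁻¹ * a) * (a * p * a) := by group
          _ = γ * p := by rw [this, f3]
      rw [← f1, ← u1]
      calc a * ρ * a * (a * (γ⁻¹ * p) * a) = a * ρ * (a * a) * (γ⁻¹ * p) * a := by group
        _ = a * (ρ * (γ⁻¹ * p)) * a := by rw [h.haa]; group
        _ = a * ((γ⁻¹ * p) * ρ) * a := by rw [k1]
        _ = a * (γ⁻¹ * p) * 1 * ρ * a := by group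
        _ = a * (γ⁻¹ * p) * (a * a) * ρ * a := by rw [h.haa]
        _ = a * (γ⁻¹ * p) * a * (a * ρ * a) := by group
    have t4 : Commute ρ⁻¹ (γ * p) := t3
    have t5 := t4.inv_left
    rwa [inv_inv] at t5
  -- `ρ` commutes with `γ²`
  have k3 : Commute ρ (γ * γ) := by
    have t1 : Commute ρ (γ * p) := k2
    have t2 : Commute ρ (γ⁻¹ * p) := k1
    have t3 := t1.mul_right t2.inv_right
    have e3 : γ * p * (γ⁻¹ * p)⁻¹ = γ * γ := by group
    rwa [e3] at t3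
  obtain ⟨n, hn⟩ := h.odd γ hγ
  have e6 : (γ * γ) ^ (n + 1) = γ := by
    rw [← pow_two, ← pow_mul, show 2 * (n + 1) = 2 * n + 1 + 1 by ring, pow_succ, hn, one_mul]
  have k4 : Commute ρ γ := by
    have := k3.pow_right (n + 1)
    rwa [e6] at this
  have t1 : Commute ρ (γ * p) := k2
  have k5 := k4.inv_right.mul_right t1
  have e7 : γ⁻¹ * (γ * p) = p := by group
  rw [e7] at k5
  exact k5

theorem pm_inv_l (h : Cfg H K a b c) {p q : G} (hp : p ∈ K) (hpa : p * a = a * p) (hq : q ∈ K)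
    (hqb : q * b = b * q) : pm p⁻¹ q = (pm p q)⁻¹ := by
  have h1 := h.inv_b (pm_mem hp hq) (pm_c h hp hpa hq hqb)
  rw [pm_invol h.hbb, xa_b h hp hpa, cj_of_comm h.hbb hqb] at h1
  exact h1

theorem pm_inv_r (h : Cfg H K a b c) {p q : G} (hp : p ∈ K) (hpa : p * a = a * p) (hq : q ∈ K)
    (hqb : q * b = b * q) : pm p q⁻¹ = (pm p q)⁻¹ := by
  have h1 := h.inv_a (pm_mem hp hq) (pm_c h hp hpa hq hqb)
  rw [pm_invol h.haa, cj_of_comm h.haa hpa, h.rot.rot.inv_b hq hqb] at h1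
  exact h1

end cfg

theorem pmf : PmfS.{u} := by
  intro G _ H K a b c h p q hp hpa hq hqb
  refine ⟨⟨pm_K0 h hp hq, pm_c h hp hpa hq hqb, pm_spec h.odd hp hq⟩,
    fun γ hγ e => pm_uniq h.odd hp hq hγ e, pm_swap h.odd hp hq, pm_inv_l h hp hpa hq hqb,
    pm_inv_r h hp hpa hq hqb, pm_eq_one h.odd hp hq,
    fun q' hq' hqb' e => pm_inj h hp hpa hq hqb hq' hqb' e, fun q' hq' hqb' e => ?_⟩
  exact pm_mul_right h.odd hp hq hq' e (xa_comm h.rot hq' hqb' hq hqb)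

theorem pmj : PmjS.{u} := by
  intro G _ H K a b c h α β
  have h1 := (part2_mulf G H K a b c h α β).1
  refine pm_uniq h.odd α.memK β.memK (J.mulJ h α β).memK ?_
  rw [h1]; group

theorem fin : FinS.{u} := by
  intro G _ H K a b c h p hp hpa
  have hfin : {w | ∃ q ∈ Cz K b, w = pm p q}.Finite → fi (Cz K b) p := by
    intro hf
    have hch : ∀ w ∈ {w | ∃ q ∈ Cz K b, w = pm p q}, ∃ q ∈ Cz K b, w = pm p q := fun w hw => hw
    choose! r hr using hch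
    refine FF.relIndex_of_cover (r '' {w | ∃ q ∈ Cz K b, w = pm p q}) (hf.image _) ?_
    intro q hq
    have h1 : pm p q ∈ {w | ∃ q ∈ Cz K b, w = pm p q} := ⟨q, hq, rfl⟩
    obtain ⟨h2, h3⟩ := hr _ h1
    refine ⟨r (pm p q), ⟨_, h1, rfl⟩, ?_⟩
    rw [Subgroup.mem_centralizer_singleton_iff]
    exact pm_inj h hp hpa (mem_Cz.1 h2).1 (mem_Cz.1 h2).2 (mem_Cz.1 hq).1 (mem_Cz.1 hq).2 h3.symm
  have hsw : {w | ∃ q ∈ Cz K b, w = pm q p} = (fun x => x⁻¹) '' {w | ∃ q ∈ Cz K b, w = pm p q} := by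
    ext w
    constructor
    · rintro ⟨q, hq, rfl⟩
      exact ⟨pm p q, ⟨q, hq, rfl⟩, (pm_swap h.odd hp (mem_Cz.1 hq).1).symm⟩
    · rintro ⟨_, ⟨q, hq, rfl⟩, rfl⟩
      exact ⟨q, hq, (pm_swap h.odd hp (mem_Cz.1 hq).1).symm⟩
  refine ⟨hfin, fun hf => hfin ?_, fun hf => ?_⟩
  · rw [hsw] at hf
    exact Set.Finite.of_finite_image hf (inv_injective.injOn)
  · rw [hsw]
    refine Set.Finite.image _ ?_
    obtain ⟨R, hR, hc⟩ := FF.cover_of_relIndex hf
    refine Set.Finite.subset ((Finset.finite_toSet R).image fun r => pm p r) ?_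
    rintro w ⟨q, hq, rfl⟩
    obtain ⟨r, hr, h1⟩ := hc q hq
    obtain ⟨hqK, hqb⟩ := mem_Cz.1 hq
    obtain ⟨hrK, hrb⟩ := mem_Cz.1 (hR r hr)
    rw [Subgroup.mem_centralizer_singleton_iff] at h1
    have hs : q * r⁻¹ ∈ K := K.mul_mem hqK (K.inv_mem hrK)
    have hsb : q * r⁻¹ * b = b * (q * r⁻¹) :=
      Commute.mul_left (show Commute q b from hqb) (Commute.inv_left (show Commute r b from hrb))
    have hsr : q * r⁻¹ * r = r * (q * r⁻¹) := xa_comm h.rot hs hsb hrK hrb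
    refine ⟨r, Finset.mem_coe.2 hr, ?_⟩
    have h2 := pm_mul_right h.odd hp hrK hs h1 hsr
    rw [← hsr] at h2
    change pm p r = pm p q
    rw [← h2]
    congr 1
    group

end Pool.Agent.FourGp.RG
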