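import Pool.Agent.Lib.MP_fb3619_al.Main
import Pool.Agent.Lib.MP_fb3619_al.FF.Sh
import Pool.Agent.Lib.MP_fb3619_al.FF.Util

/-!
# MP_fb3619_al, board RG: rigidity. Definitions and statements of the rows.
Paper: `RG/Paper.md`.
-/

set_option autoImplicit false

universe u

namespace Pool.Agent.FourGp.RG

open Equiv
open Pool.Agent.FourGp.FF (Fr Cz Fx fi VInv HD TT)
open Pool.Agent.FourGp.H99 (LF)

/-- The square root of an element of odd order. -/
noncomputable def hsq {G : Type u} [Group G] (g : G) : G := g ^ ((orderOf g + 1) / 2)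

/-- The element `γ` with `p q = γ (q p) γ` (for elements of a group all of whose elements have odd
order). -/
noncomputable def pm {G : Type u} [Group G] (p q : G) : G := hsq (p * q * (q * p)) * (q * p)⁻¹

/-- `e` has odd order, commutes with the four-group and normalises `K`. -/
structure EA {G : Type u} [Group G] (K : Subgroup G) (a b c e : G) : Prop where
  odd : ∃ n : ℕ, e ^ (2 * n + 1) = 1
  ca : e * a = a * e
  cb : e * b = b * e
  cc : e * c = c * e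
  nor : ∀ k ∈ K, e⁻¹ * k * e ∈ K

/-- Conjugation by an element of `C_K(a)` on the points. -/
def cjx {G : Type u} [Group G] {H K : Subgroup G} {a b c : G} (h : Cfg H K a b c) {x : G}
    (hx : x ∈ K) : Perm (Pt H) := cj H ⟨x, h.le hx⟩

/-- PMF: the product `pm`, group level. -/
def PmfS : Prop := ∀ (G : Type u) [Group G] (H K : Subgroup G) (a b c : G), Cfg H K a b c →
  ∀ p q : G, p ∈ K → p * a = a * p → q ∈ K → q * b = b * q →
  (pm p q ∈ K0 H K ∧ pm p q * c = c * pm p q ∧ p * q = pm p q * (q * p) * pm p q) ∧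
  (∀ γ ∈ K, p * q = γ * (q * p) * γ → γ = pm p q) ∧
  pm q p = (pm p q)⁻¹ ∧ pm p⁻¹ q = (pm p q)⁻¹ ∧ pm p q⁻¹ = (pm p q)⁻¹ ∧
  (pm p q = 1 ↔ p * q = q * p) ∧
  (∀ q' ∈ K, q' * b = b * q' → pm p q = pm p q' → (q' * q⁻¹) * p = p * (q' * q⁻¹)) ∧
  (∀ q' ∈ K, q' * b = b * q' → q' * p = p * q' → pm p (q * q') = pm p q)

/-- PMJ: `pm` and the products of the theory 3015. -/
def PmjS : Prop := ∀ (G : Type u) [Group G] (H K : Subgroup G) (a b c : G) (h : Cfg H K a b c)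
  (α : J h.rot) (β : J h.rot.rot), (J.mulJ h α β).1 = pm α.1 β.1

/-- FIN: finitely many values. -/
def FinS : Prop := ∀ (G : Type u) [Group G] (H K : Subgroup G) (a b c : G), Cfg H K a b c →
  ∀ p : G, p ∈ K → p * a = a * p →
  ({w | ∃ q ∈ Cz K b, w = pm p q}.Finite → fi (Cz K b) p) ∧
  ({w | ∃ q ∈ Cz K b, w = pm q p}.Finite → fi (Cz K b) p) ∧
  (fi (Cz K b) p → {w | ∃ q ∈ Cz K b, w = pm q p}.Finite)

/-- INX: incidence in coordinates, outside the class of `a`. -/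
def InxS : Prop := ∀ (G : Type u) [Group G] (H K : Subgroup G) (a b c : G), Cfg H K a b c →
  ∀ z γ β s : G, IsPt H z → a * z ∈ K → γ ∈ K → γ * c = c * γ → β ∈ K → β * b = b * β →
  s ∈ K → s * a = a * s → z * (b * γ) = (b * γ) * z → z * (c * β) = (c * β) * z →
  (z * (c * s) = (c * s) * z ↔ β = pm γ s) ∧ (z * (b * s) = (b * s) * z ↔ γ = pm β s)

/-- ROX: for `x ∈ C_K(a)` (not only in `J_a`) the maps `y ↦ pm y x` are additive on `J_b` and `J_c`;
conjugation by `x` is additive in coordinates, and the Cayley formula. -/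
def RoxS : Prop := ∀ (G : Type u) [Group G] (H K : Subgroup G) (a b c : G) (h : Cfg H K a b c)
  (x : G) (hx : x ∈ K), x * a = a * x →
  ∃ (A : J h.rot.rot →+ J h) (B : J h →+ J h.rot.rot) (R : AddMonoid.End (J h × J h.rot.rot)),
    (∀ β, (A β).1 = pm β.1 x) ∧ (∀ γ, (B γ).1 = pm γ.1 x) ∧
    (∀ z γ β, IsC h z γ β → IsC h (cjx h hx z) (R (γ, β)).1 (R (γ, β)).2) ∧
    (∀ γ β, (R (γ, β)).1 - A (R (γ, β)).2 = γ + A β ∧ (R (γ, β)).2 - B (R (γ, β)).1 = β + B γ)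

/-- P1J: `x (x' y) = x' (x y)` for `x, x' ∈ C_K(a)`, `y ∈ J_b` or `J_c`. -/
def P1jS : Prop := ∀ (G : Type u) [Group G] (H K : Subgroup G) (a b c : G) (h : Cfg H K a b c)
  (x x' : G), x ∈ K → x * a = a * x → x' ∈ K → x' * a = a * x' →
  (∀ β : J h.rot.rot, pm (pm β.1 x) x' = pm (pm β.1 x') x) ∧
  (∀ γ : J h, pm (pm γ.1 x) x' = pm (pm γ.1 x') x)

/-- JSW: the addition does not depend on the order of the types. -/
def JswS : Prop := ∀ (G : Type u) [Group G] (H K : Subgroup G) (a b c : G) (h : Cfg H K a b c)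
  (x y : J h) (x' y' : J h.swap), x'.1 = x.1 → y'.1 = y.1 → (x' + y').1 = (x + y).1

/-- EAC: `e` acts additively on `J_c`. -/
def EacS : Prop := ∀ (G : Type u) [Group G] (H K : Subgroup G) (a b c : G) (h : Cfg H K a b c)
  (e : G), EA K a b c e → ∃ E : J h →+ J h, ∀ γ, (E γ).1 = e⁻¹ * γ.1 * e

/-- CNJ: multiplicative finite index = additive finite index (`K` locally finite). -/
def CnjS : Prop := ∀ (G : Type u) [Group G] (H K : Subgroup G) (a b c : G) (h : Cfg H K a b c),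
  LF K → ∀ (C : AddSubgroup (J h)) (M : Subgroup G), (∀ γ : J h, γ ∈ C ↔ γ.1 ∈ M) →
  M.relIndex (Cz K c) ≠ 0 → C.index ≠ 0

/-- MIX: mixed P1. For `x, x' ∈ C_K(a)` and ANY `γ ∈ C_K(c)` the elements `x (x' γ)` and `x' (x γ)`
of `J_c` differ (additively) by an element which commutes with `C_K(a)`. -/
def MixS : Prop := ∀ (G : Type u) [Group G] (H K : Subgroup G) (a b c : G) (h : Cfg H K a b c)
  (x x' γ : G), x ∈ K → x * a = a * x → x' ∈ K → x' * a = a * x' → γ ∈ K → γ * c = c * γ →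
  ∀ u v : J h, u.1 = pm (pm γ x) x' → v.1 = pm (pm γ x') x →
  ∀ y ∈ K, y * a = a * y → y * (u - v).1 = (u - v).1 * y

/-- R1C: ONE-SIDED RIGIDITY (4547 (1), 4554 R1'). -/
def R1cS : Prop := ∀ (G : Type u) [Group G] (H K : Subgroup G) (a b c : G), Cfg H K a b c →
  LF K → (∀ y ∈ Cz K b, fi (Cz K a) y → y = 1) → (∀ y ∈ Cz K c, fi (Cz K a) y → y = 1) →
  ∀ e : G, EA K a b c e → (fi (Cz K c) e ∨ fi (Cz K b) e) →
  (∀ x ∈ Cz K a, ∀ k ∈ K, (x⁻¹ * (e⁻¹ * x * e)) * k = k * (x⁻¹ * (e⁻¹ * x * e))) ∧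
  (∀ y ∈ Cz K b, e * y = y * e) ∧ (∀ y ∈ Cz K c, e * y = y * e)

/-- RPC: RIGIDITY with two big types `a, b` (4527 and 4547 (2)). -/
def RpcS : Prop := ∀ (G : Type u) [Group G] (H K : Subgroup G) (a b c : G), Cfg H K a b c →
  LF K → {y | y ∈ Cz K b ∧ fi (Cz K a) y}.Finite → {y | y ∈ Cz K c ∧ fi (Cz K a) y}.Finite →
  {y | y ∈ Cz K a ∧ fi (Cz K b) y}.Finite → {y | y ∈ Cz K c ∧ fi (Cz K b) y}.Finite →
  ∀ e : G, EA K a b c e → fi (Cz K c) e → fi (Cz K a) e ∧ fi (Cz K b) e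

/-- FRC: a `V`-invariant subgroup `W` of a frame with `C_W(V) = 1` gives a configuration. -/
def FrcS : Prop := ∀ (G : Type u) [Group G] (K W : Subgroup G) (a b c : G), Fr K a b c →
  W ≤ K → VInv a b W → (∀ w ∈ W, w ∈ Fx K a b → w = 1) →
  Cfg (HV W a b c) W a b c ∧ ∀ e ∈ Fx K a b, (∀ w ∈ W, e⁻¹ * w * e ∈ W) → EA W a b c e

/-- R1: consumer form of R1C. -/
def R1S : Prop := ∀ (G : Type u) [Group G] (K W : Subgroup G) (a b c : G), Fr K a b c →
  W ≤ K → VInv a b W → (∀ w ∈ W, w ∈ Fx K a b → w = 1) → LF W →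
  (∀ y ∈ Cz W b, fi (Cz W a) y → y = 1) → (∀ y ∈ Cz W c, fi (Cz W a) y → y = 1) →
  ∀ e ∈ Fx K a b, (∀ w ∈ W, e⁻¹ * w * e ∈ W) → (fi (Cz W c) e ∨ fi (Cz W b) e) →
  (∀ x ∈ Cz W a, ∀ k ∈ W, (x⁻¹ * (e⁻¹ * x * e)) * k = k * (x⁻¹ * (e⁻¹ * x * e))) ∧
  (∀ y ∈ Cz W b, e * y = y * e) ∧ (∀ y ∈ Cz W c, e * y = y * e)

/-- RP: consumer form of RPC. -/
def RpS : Prop := ∀ (G : Type u) [Group G] (K W : Subgroup G) (a b c : G), Fr K a b c →
  W ≤ K → VInv a b W → (∀ w ∈ W, w ∈ Fx K a b → w = 1) → LF W →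
  {y | y ∈ Cz W b ∧ fi (Cz W a) y}.Finite → {y | y ∈ Cz W c ∧ fi (Cz W a) y}.Finite →
  {y | y ∈ Cz W a ∧ fi (Cz W b) y}.Finite → {y | y ∈ Cz W c ∧ fi (Cz W b) y}.Finite →
  ∀ e ∈ Fx K a b, (∀ w ∈ W, e⁻¹ * w * e ∈ W) → fi (Cz W c) e → fi (Cz W a) e ∧ fi (Cz W b) e

theorem r1_of (h1 : FrcS.{u}) (h2 : R1cS.{u}) : R1S.{u} := by
  intro G _ K W a b c h hW hV hF hL h3 h4 e he hn h5
  obtain ⟨h6, h7⟩ := h1 G K W a b c h hW hV hF
  exact h2 G _ W a b c h6 hL h3 h4 e (h7 e he hn) h5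

theorem rp_of (h1 : FrcS.{u}) (h2 : RpcS.{u}) : RpS.{u} := by
  intro G _ K W a b c h hW hV hF hL h3 h4 h3' h4' e he hn h5
  obtain ⟨h6, h7⟩ := h1 G K W a b c h hW hV hF
  exact h2 G _ W a b c h6 hL h3 h4 h3' h4' e (h7 e he hn) h5

/-- FLT: FLATNESS (4501 (2a)): a locally finite subgroup generated by elements of the `T_v` has no
common fixed points. `S` is closed under the four-group. Finite subgroups are soluble. -/
def FltS : Prop := ∀ (G : Type u) [Group G] (K : Subgroup G) (a b c : G), Fr K a b c →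
  ∀ S : Set G, (∀ s ∈ S, ∃ v, (v = a ∨ v = b ∨ v = c) ∧ TT K a b c v s) →
  LF (Subgroup.closure S) →
  (∀ P : Subgroup G, P ≤ Subgroup.closure S → Finite P → IsSolvable P) →
  ∀ w ∈ Subgroup.closure S, w ∈ Fx K a b → w = 1

end Pool.Agent.FourGp.RG
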